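import Pool.Agent.H90.SRC.Targets
import Pool.Agent.H66.SLP.All

/-!
# MP_81fcf0_co, row LPA: the linear program on a segment, with capped weights
-/

set_option autoImplicit false

open Finset
open Pool.Agent.H66.SLP Pool.Agent.H90.SRC

namespace Pool.Agent.H46.SPC

theorem cov_shift {ι : Type} (s e : ι → ℕ) (F : Finset ι) (α x : ℕ) :
    cov (fun i => s i - α) (fun i => e i - α) F x = cov s e F (x + α) := by
  unfold cov
  congr 1
  refine Finset.filter_congr fun i _ => ?_
  simp only
  constructor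
  · rintro ⟨h1, h2⟩; exact ⟨by omega, by omega⟩
  · rintro ⟨h1, h2⟩; exact ⟨by omega, by omega⟩

theorem pf_LPA : T_LPA := by
  intro Y u p α β M Q θ hPr hαβ hQM hQ hI
  obtain ⟨ι, _, _, z, s, e, hF, hc, hp⟩ := hI
  obtain ⟨F, w0, s', hw0, hF', hcov, hM⟩ := lp ι (β - α) Q (fun i => s i - α) (fun i => e i - α)
    (fun i => p (z i))
    (fun i => by
      have h1 := hF.lo i
      have h2 := hF.lt i
      have h3 := hF.hi i
      omega)
    (fun i => by have := (hPr (z i)).1; linarith)
    (fun x hx => by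
      rw [cov_shift]
      exact hQM.trans (hc (x + α) (by omega) (by omega)))
  set w : ℕ → ℝ := fun x => if α ≤ x ∧ x < β then min (w0 (x - α)) 2 else 0 with hw
  have hw_nn : ∀ x, 0 ≤ w x ∧ w x ≤ 2 := by
    intro x
    simp only [hw]
    split_ifs
    · exact ⟨le_min (hw0 _) (by norm_num), min_le_right _ _⟩
    · norm_num
  have hwt : ∀ a b, b ≤ β - α → wt w (a + α) (b + α) = ∑ x ∈ Ico a b, min (w0 x) 2 := by
    intro a b hb
    unfold wt
    rw [← Finset.sum_Ico_add' w a b α]
    refine Finset.sum_congr rfl fun x hx => ?_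
    rw [Finset.mem_Ico] at hx
    simp only [hw]
    rw [if_pos ⟨by omega, by omega⟩, Nat.add_sub_cancel]
  refine ⟨{i // i ∈ F}, inferInstance, inferInstance, fun i => z i.1, fun i => s' i.1 + α,
    fun i => e i.1, w, ?_, hw_nn, ?_, ?_, ?_⟩
  · refine ⟨fun i => by simp, fun i => ?_, fun i => hF.hi i.1, fun i j hij hz => ?_,
      fun i k h1 h2 => ?_⟩
    · have := (hF' i.1 i.2).2.1
      omega
    · have h1 := hF.sep i.1 j.1 (fun h => hij (Subtype.ext h)) hz
      have h2 := (hF' i.1 i.2).1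
      have h3 := (hF' j.1 j.2).1
      omega
    · have h3 := (hF' i.1 i.2).1
      exact hF.av i.1 k (by omega) h2
  · intro x h1 h2
    rw [← hcov (x - α) (by omega)]
    unfold cov
    refine Finset.card_bij (fun i _ => i.1) ?_ ?_ ?_
    · intro i hi
      rw [Finset.mem_filter] at hi ⊢
      obtain ⟨-, h3, h4⟩ := hi
      simp only at h3 h4 ⊢
      exact ⟨i.2, by omega, by omega⟩
    · intro i _ j _ h
      exact Subtype.ext h
    · intro i hi
      rw [Finset.mem_filter] at hi
      obtain ⟨h3, h4, h5⟩ := hi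
      simp only at h4 h5
      refine ⟨⟨i, h3⟩, ?_, rfl⟩
      rw [Finset.mem_filter]
      exact ⟨Finset.mem_univ _, by simp only; omega, by simp only; omega⟩
  · intro i
    obtain ⟨h1, h2, h3, h4⟩ := hF' i.1 i.2
    have h5 := hF.hi i.1
    have h6 := hF.lt i.1
    have h7 := hF.lo i.1
    have h8 : e i.1 = (e i.1 - α) + α := by omega
    simp only at h1 h2 h4 ⊢
    rw [h8, hwt _ _ (by omega)]
    by_cases hx : ∃ x ∈ Ico (s' i.1) (e i.1 - α), 2 ≤ w0 x
    · obtain ⟨x, hx1, hx2⟩ := hx
      calc p (z i.1) ≤ 2 := (hPr _).2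
        _ = min (w0 x) 2 := (min_eq_right hx2).symm
        _ ≤ ∑ x ∈ Ico (s' i.1) (e i.1 - α), min (w0 x) 2 :=
            Finset.single_le_sum (f := fun x => min (w0 x) 2)
              (fun y _ => le_min (hw0 y) (by norm_num)) hx1
    · push Not at hx
      refine h4.trans (le_of_eq ?_)
      unfold wt
      exact Finset.sum_congr rfl fun x hx' => (min_eq_left (hx x hx').le).symm
  · have h1 := hM M univ (fun x hx => by
      rw [cov_shift]
      exact hc (x + α) (by omega) (by omega))
    have h2 : wt w α β ≤ wt w0 0 (β - α) := by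
      have h3 := hwt 0 (β - α) le_rfl
      rw [zero_add, Nat.sub_add_cancel hαβ.le] at h3
      rw [h3]
      unfold wt
      exact Finset.sum_le_sum fun x _ => min_le_left _ _
    have h3 : (0 : ℝ) ≤ (M : ℝ) - Q := by
      have : (Q : ℝ) ≤ M := by exact_mod_cast hQM
      linarith
    have h4 : ∑ i : {i // i ∈ F}, p (z i.1) = ∑ i ∈ F, p (z i) :=
      Finset.sum_coe_sort F (fun i => p (z i))
    calc ((M : ℝ) - Q) * wt w α β ≤ ((M : ℝ) - Q) * wt w0 0 (β - α) :=
          mul_le_mul_of_nonneg_left h2 h3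
      _ ≤ ∑ i, p (z i) - ∑ i ∈ F, p (z i) := h1
      _ ≤ M * θ - ∑ i : {i // i ∈ F}, p (z i.1) := by rw [h4]; linarith

end Pool.Agent.H46.SPC
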